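import Pool.Agent.helper78.WB.SpecIII

/-!
# Project wb, Part III: row BZ (Bezout for forms in three variables)
-/

set_option autoImplicit false

namespace Pool.Agent.WB

open MvPolynomial Module

attribute [-instance] AddCommGroup.toIntModule

namespace BZaux

/-- rank-nullity over the integers -/
theorem rn {R M N : Type} [CommRing R] [IsDomain R] [AddCommGroup M] [Module R M] [Module.Finite R M]
    [AddCommGroup N] [Module R N] (f : M →ₗ[R] N) :
    finrank R (LinearMap.range f) + finrank R (LinearMap.ker f) = finrank R M := by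
  have h := (LinearMap.ker f).finrank_quotient_add_finrank
  rwa [LinearEquiv.finrank_eq f.quotKerEquivRange] at h

/-- multiplication by a form -/
noncomputable def mul (p : MvPolynomial (Fin 3) ℤ) (d a n : ℕ) (hp : p.IsHomogeneous d) (h : d + a = n) :
    homogeneousSubmodule (Fin 3) ℤ a →ₗ[ℤ] homogeneousSubmodule (Fin 3) ℤ n where
  toFun A := ⟨p * A.1, by
    rw [mem_homogeneousSubmodule, ← h]
    exact hp.mul ((mem_homogeneousSubmodule _ _).1 A.2)⟩
  map_add' A B := by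
    apply Subtype.ext
    simp [mul_add]
  map_smul' c A := by
    apply Subtype.ext
    simp only [Submodule.coe_smul, RingHom.id_apply, mul_smul_comm]

theorem mul_coe (p : MvPolynomial (Fin 3) ℤ) (d a n : ℕ) (hp : p.IsHomogeneous d) (h : d + a = n)
    (A : homogeneousSubmodule (Fin 3) ℤ a) : ((mul p d a n hp h A).1 : MvPolynomial (Fin 3) ℤ) = p * A.1 :=
  rfl

/-- evaluation at the points of `S` -/
noncomputable def evl (S : Finset V3) (n : ℕ) : homogeneousSubmodule (Fin 3) ℤ n →ₗ[ℤ] (S → ℤ) where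
  toFun A ζ := eval ζ.1 A.1
  map_add' A B := by
    funext ζ
    simp
  map_smul' c A := by
    funext ζ
    simp

theorem evl_apply (S : Finset V3) (n : ℕ) (A : homogeneousSubmodule (Fin 3) ℤ n) (ζ : S) :
    evl S n A ζ = eval ζ.1 A.1 := rfl

theorem two_s3 (n : ℕ) : 2 * s3 n = (n + 1) * (n + 2) := by
  rw [s3]
  exact Nat.mul_div_cancel' (Nat.even_mul_succ_self (n + 1)).two_dvd

/-- the rank of the evaluation -/
theorem rank_evl (h3 : SEPF_stmt) (S : Finset V3) (hNP : NP S) (hS : ∀ ζ ∈ S, ζ ≠ 0) (T : ℕ)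
    (hT : S.card ≤ T) : S.card ≤ finrank ℤ (LinearMap.range (evl S T)) := by
  classical
  have hf : ∀ ζ : S, ∃ f : MvPolynomial (Fin 3) ℤ, f.IsHomogeneous T ∧ eval ζ.1 f ≠ 0 ∧
      ∀ η ∈ S, η ≠ ζ.1 → eval η f = 0 := fun ζ => h3 S hNP ζ.1 ζ.2 (hS ζ.1 ζ.2) T hT
  choose f hf1 hf2 hf3 using hf
  let b : S → LinearMap.range (evl S T) := fun ζ =>
    ⟨evl S T ⟨f ζ, (mem_homogeneousSubmodule _ _).2 (hf1 ζ)⟩, LinearMap.mem_range_self _ _⟩
  have hb : LinearIndependent ℤ b := by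
    rw [Fintype.linearIndependent_iff]
    intro g hg ζ
    have h1 := congrArg (fun y : LinearMap.range (evl S T) => y.1 ζ) hg
    simp only [AddSubmonoidClass.coe_finsetSum, Finset.sum_apply, ZeroMemClass.coe_zero,
      Pi.zero_apply] at h1
    rw [Finset.sum_eq_single ζ] at h1
    · have h2 : g ζ * eval ζ.1 (f ζ) = 0 := h1
      exact (mul_eq_zero.1 h2).resolve_right (hf2 ζ)
    · intro η _ hη
      have h2 : eval ζ.1 (f η) = 0 := hf3 η ζ.1 ζ.2 (fun h => hη (Subtype.ext h.symm))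
      change g η * eval ζ.1 (f η) = 0
      rw [h2, mul_zero]
    · intro h
      exact absurd (Finset.mem_univ _) h
  have h := hb.fintype_card_le_finrank
  rwa [Fintype.card_coe] at h

end BZaux

open BZaux in
theorem BZ (h1 : DIM3_stmt) (h2 : HQ_stmt) (h3 : SEPF_stmt) : BZ_stmt := by
  intro p q d e hp hpd hd hqe hpq S hNP hS
  have hq0 : q ≠ 0 := fun h => hpq (h ▸ dvd_zero p)
  have hp0 : p ≠ 0 := hp.ne_zero
  have hpr : Prime p := UniqueFactorizationMonoid.irreducible_iff_prime.1 hp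
  obtain ⟨-, h1⟩ := h1
  obtain ⟨m, hm⟩ : ∃ m, m = S.card := ⟨_, rfl⟩
  obtain ⟨T, hT⟩ : ∃ T, T = d + e + m := ⟨_, rfl⟩
  have fA : Module.Finite ℤ (homogeneousSubmodule (Fin 3) ℤ (e + m)) := (h1 ℤ (e + m)).1
  have fB : Module.Finite ℤ (homogeneousSubmodule (Fin 3) ℤ (d + m)) := (h1 ℤ (d + m)).1
  have fC : Module.Finite ℤ (homogeneousSubmodule (Fin 3) ℤ m) := (h1 ℤ m).1
  have fT : Module.Finite ℤ (homogeneousSubmodule (Fin 3) ℤ T) := (h1 ℤ T).1
  have rA : Module.Free ℤ (homogeneousSubmodule (Fin 3) ℤ (e + m)) := (h1 ℤ (e + m)).2.1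
  have rB : Module.Free ℤ (homogeneousSubmodule (Fin 3) ℤ (d + m)) := (h1 ℤ (d + m)).2.1
  have rC : Module.Free ℤ (homogeneousSubmodule (Fin 3) ℤ m) := (h1 ℤ m).2.1
  have rT : Module.Free ℤ (homogeneousSubmodule (Fin 3) ℤ T) := (h1 ℤ T).2.1
  let mp := mul p d (e + m) T hpd (by omega)
  let mq := mul q e (d + m) T hqe (by omega)
  let Φ := LinearMap.coprod mp mq
  let Θ := LinearMap.prod (-(mul q e m (e + m) hqe rfl)) (mul p d m (d + m) hpd rfl)
  have hker : LinearMap.ker Φ ≤ LinearMap.range Θ := by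
    rintro ⟨A, B⟩ hAB
    rw [LinearMap.mem_ker] at hAB
    have hAB1 : p * A.1 + q * B.1 = 0 := congrArg Subtype.val hAB
    by_cases hB : B.1 = 0
    · rw [hB, mul_zero, add_zero] at hAB1
      have hA : A.1 = 0 := (mul_eq_zero.1 hAB1).resolve_left hp0
      refine ⟨0, ?_⟩
      rw [map_zero]
      symm
      exact Prod.ext (Subtype.ext hA) (Subtype.ext hB)
    · have hdv : p ∣ q * B.1 := by
        have : q * B.1 = p * (-A.1) := by linear_combination hAB1
        exact ⟨_, this⟩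
      have hdB : p ∣ B.1 := (hpr.dvd_or_dvd hdv).resolve_left hpq
      obtain ⟨-, r, hr, hBr⟩ := h2 ℤ p B.1 d (d + m) hpd hp0 ((mem_homogeneousSubmodule _ _).1 B.2) hB hdB
      rw [Nat.add_sub_cancel_left] at hr
      have hA : A.1 = -(q * r) := by
        apply mul_left_cancel₀ hp0
        rw [hBr] at hAB1
        linear_combination hAB1
      refine ⟨⟨r, (mem_homogeneousSubmodule _ _).2 hr⟩, ?_⟩
      refine Prod.ext (Subtype.ext ?_) (Subtype.ext ?_)
      · exact hA.symm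
      · exact hBr.symm
  have hk : finrank ℤ (LinearMap.ker Φ) ≤ s3 m := by
    calc finrank ℤ (LinearMap.ker Φ) ≤ finrank ℤ (LinearMap.range Θ) := Submodule.finrank_mono hker
      _ ≤ finrank ℤ (homogeneousSubmodule (Fin 3) ℤ m) := LinearMap.finrank_range_le Θ
      _ = s3 m := (h1 ℤ m).2.2
  have hΦ := rn Φ
  rw [Module.finrank_prod, (h1 ℤ (e + m)).2.2, (h1 ℤ (d + m)).2.2] at hΦ
  have hle : LinearMap.range Φ ≤ LinearMap.ker (evl S T) := by
    rintro _ ⟨⟨A, B⟩, rfl⟩
    rw [LinearMap.mem_ker]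
    funext ζ
    change eval ζ.1 (p * A.1 + q * B.1) = 0
    rw [map_add, map_mul, map_mul, (hS ζ.1 ζ.2).2.1, (hS ζ.1 ζ.2).2.2, zero_mul, zero_mul, add_zero]
  have hr : finrank ℤ (LinearMap.range Φ) ≤ finrank ℤ (LinearMap.ker (evl S T)) :=
    Submodule.finrank_mono hle
  have hΨ := rn (evl S T)
  rw [(h1 ℤ T).2.2] at hΨ
  have hS2 := rank_evl h3 S hNP (fun ζ h => (hS ζ h).1) T (by omega)
  have e1 := two_s3 m
  have e2 := two_s3 (e + m)
  have e3 := two_s3 (d + m)
  have e4 := two_s3 T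
  have key : m + s3 (e + m) + s3 (d + m) ≤ s3 T + s3 m := by omega
  have e5 : 2 * m + (e + m + 1) * (e + m + 2) + (d + m + 1) * (d + m + 2) ≤
      (T + 1) * (T + 2) + (m + 1) * (m + 2) := by omega
  rw [hT] at e5
  rw [← hm]
  nlinarith [e5]

end Pool.Agent.WB
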